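import Pool.Agent.helper62.LL.SpecG
import Pool.Agent.helper62.RS.All
import Pool.Agent.helper62.EN.XFL
import Pool.Agent.helper11.EN.XTM

/-!
# MP_07c750, project LL, row ll:ACM: finite energy at the scale of the area implies absolute continuity
-/

set_option autoImplicit false

open scoped MatrixGroups ContDiff Topology UpperHalfPlane ENNReal
open UpperHalfPlane MeasureTheory Filter Set

namespace Pool.Agent.LL

open Pool.Agent.EN (XG MG mkX mkM fl pr)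

section abs

variable {M : Type} [TopologicalSpace M] [SecondCountableTopology M] [MeasurableSpace M] [BorelSpace M]

/-- the lower bound by Tonelli -/
theorem ACM_low (lam σ : Measure M) [IsFiniteMeasure lam] [IsFiniteMeasure σ] (D : Set (M × M)) (m : ℝ≥0∞) (hD : IsOpen D)
    (K U : Set M) (hK : MeasurableSet K) (hlow : ∀ b ∈ K, m ≤ lam {a | (a, b) ∈ D}) (hU : MeasurableSet U)
    (hnb : ∀ a, ∀ b ∈ K, (a, b) ∈ D → a ∈ U) :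
    m * σ K ≤ ∫⁻ a in U, σ (Prod.mk a ⁻¹' D) ∂lam := by
  have hDm : MeasurableSet D := hD.measurableSet
  rw [← Measure.prod_apply hDm, Measure.prod_apply_symm hDm]
  calc m * σ K = ∫⁻ _ in K, m ∂σ := by rw [setLIntegral_const]
    _ ≤ ∫⁻ b in K, (lam.restrict U) ((fun a => (a, b)) ⁻¹' D) ∂σ := by
        refine setLIntegral_mono' hK fun b hb => ?_
        refine le_trans (hlow b hb) ?_
        have hs : (fun a => (a, b)) ⁻¹' D = {a | (a, b) ∈ D} := rfl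
        have hm : MeasurableSet {a | (a, b) ∈ D} := by
          rw [← hs]
          exact hDm.preimage (by fun_prop)
        rw [hs, Measure.restrict_apply hm]
        refine measure_mono fun a ha => ⟨ha, hnb a b hb ha⟩
    _ ≤ _ := setLIntegral_le_lintegral _ _

/-- the upper bound of the square by Tonelli -/
theorem ACM_up (lam σ : Measure M) [IsFiniteMeasure lam] [IsFiniteMeasure σ] (D D2 : Set (M × M)) (m : ℝ≥0∞) (hD : IsOpen D)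
    (hD2 : IsOpen D2) (hup : ∀ b, lam {a | (a, b) ∈ D} ≤ m) (htri : ∀ a b b', (a, b) ∈ D → (a, b') ∈ D → (b, b') ∈ D2) :
    ∫⁻ a, (σ (Prod.mk a ⁻¹' D)) ^ (2 : ℝ) ∂lam ≤ m * (σ.prod σ) D2 := by
  have hTo : IsOpen {p : M × (M × M) | (p.1, p.2.1) ∈ D ∧ (p.1, p.2.2) ∈ D} := by
    refine IsOpen.inter (hD.preimage ?_) (hD.preimage ?_) <;> fun_prop
  have hTm := hTo.measurableSet
  have e1 : ∫⁻ a, (σ (Prod.mk a ⁻¹' D)) ^ (2 : ℝ) ∂lam =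
      (lam.prod (σ.prod σ)) {p : M × (M × M) | (p.1, p.2.1) ∈ D ∧ (p.1, p.2.2) ∈ D} := by
    rw [Measure.prod_apply hTm]
    refine lintegral_congr fun a => ?_
    have e2 : Prod.mk a ⁻¹' {p : M × (M × M) | (p.1, p.2.1) ∈ D ∧ (p.1, p.2.2) ∈ D} =
        (Prod.mk a ⁻¹' D) ×ˢ (Prod.mk a ⁻¹' D) := by
      ext ⟨b, b'⟩
      simp [Set.mem_prod]
    rw [e2, Measure.prod_prod, show (2 : ℝ) = ((2 : ℕ) : ℝ) by norm_num, ENNReal.rpow_natCast, pow_two]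
  rw [e1, Measure.prod_apply_symm hTm]
  calc ∫⁻ q, lam ((fun a => (a, q)) ⁻¹' {p : M × (M × M) | (p.1, p.2.1) ∈ D ∧ (p.1, p.2.2) ∈ D}) ∂(σ.prod σ)
      ≤ ∫⁻ q, D2.indicator (fun _ => m) q ∂(σ.prod σ) := by
        refine lintegral_mono fun q => ?_
        by_cases hq : q ∈ D2
        · rw [Set.indicator_of_mem hq]
          refine le_trans (measure_mono ?_) (hup q.1)
          intro a ha
          exact ha.1
        · rw [Set.indicator_of_notMem hq]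
          have : (fun a => (a, q)) ⁻¹' {p : M × (M × M) | (p.1, p.2.1) ∈ D ∧ (p.1, p.2.2) ∈ D} = ∅ := by
            ext a
            simp only [Set.mem_preimage, Set.mem_empty_iff_false, iff_false]
            intro h
            exact hq (htri a q.1 q.2 h.1 h.2)
          rw [this]
          simp
    _ = m * (σ.prod σ) D2 := by
        rw [lintegral_indicator hD2.measurableSet, setLIntegral_const]

/-- the inequality of Cauchy and Schwarz -/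
theorem ACM_cs (lam : Measure M) (f : M → ℝ≥0∞) (hf : Measurable f) (U : Set M) :
    (∫⁻ a in U, f a ∂lam) ^ (2 : ℝ) ≤ (∫⁻ a, f a ^ (2 : ℝ) ∂lam) * lam U := by
  have h := ENNReal.lintegral_mul_le_Lp_mul_Lq (lam.restrict U) (p := 2) (q := 2)
    (by rw [Real.holderConjugate_iff]; norm_num) hf.aemeasurable (g := fun _ => 1) aemeasurable_const
  have e1 : ∫⁻ a, (f * (fun _ : M => (1 : ℝ≥0∞))) a ∂(lam.restrict U) = ∫⁻ a in U, f a ∂lam := by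
    refine lintegral_congr fun a => ?_
    simp
  have e2 : ∫⁻ _, (1 : ℝ≥0∞) ^ (2 : ℝ) ∂(lam.restrict U) = lam U := by
    simp
  rw [e1, e2] at h
  have h2 := ENNReal.rpow_le_rpow h (show (0 : ℝ) ≤ 2 by norm_num)
  rw [ENNReal.mul_rpow_of_nonneg _ _ (by norm_num), ← ENNReal.rpow_mul, ← ENNReal.rpow_mul] at h2
  norm_num at h2
  have h3 : ∫⁻ a in U, f a ^ (2 : ℝ) ∂lam ≤ ∫⁻ a, f a ^ (2 : ℝ) ∂lam := setLIntegral_le_lintegral _ _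
  norm_num
  norm_num at h3
  exact h2.trans (mul_le_mul_left h3 _)

/-- the measure of a compact set `K ⊆ U` -/
theorem ACM_key (lam σ : Measure M) [IsFiniteMeasure lam] [IsFiniteMeasure σ] (D : ℝ → Set (M × M)) (c C₀ C : ℝ)
    (hD : ∀ ρ, IsOpen (D ρ))
    (hlow : ∀ b ρ, 0 < ρ → ρ ≤ 1 → ENNReal.ofReal (c * ρ ^ 2) ≤ lam {a | (a, b) ∈ D ρ})
    (hup : ∀ b ρ, 0 < ρ → ρ ≤ 1 → lam {a | (a, b) ∈ D ρ} ≤ ENNReal.ofReal (C₀ * ρ ^ 2))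
    (htri : ∀ a b b' ρ, (a, b) ∈ D ρ → (a, b') ∈ D ρ → (b, b') ∈ D (2 * ρ))
    (hen : ∀ ρ : ℝ, 0 < ρ → ρ ≤ 1 → (σ.prod σ) (D ρ) ≤ ENNReal.ofReal (C * ρ ^ (1 + (1 : ℝ))))
    (K U : Set M) (hK : MeasurableSet K) (hU : MeasurableSet U)
    (hnb : ∃ ρ₀ : ℝ, 0 < ρ₀ ∧ ∀ ρ ≤ ρ₀, ∀ a, ∀ b ∈ K, (a, b) ∈ D ρ → a ∈ U) :
    (ENNReal.ofReal c * σ K) ^ (2 : ℝ) ≤ (ENNReal.ofReal C₀ * (ENNReal.ofReal C * 4)) * lam U := by
  obtain ⟨ρ₀, hρ₀, hnb⟩ := hnb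
  set ρ : ℝ := min ρ₀ (1 / 2) with hρdef
  have hρ : 0 < ρ := by positivity
  have hρ1 : ρ ≤ 1 / 2 := min_le_right _ _
  have hρ2 : ρ ≤ ρ₀ := min_le_left _ _
  have h1 := ACM_low lam σ (D ρ) (ENNReal.ofReal (c * ρ ^ 2)) (hD ρ) K U hK
    (fun b _ => hlow b ρ hρ (by linarith)) hU (hnb ρ hρ2)
  have h2 := ACM_up lam σ (D ρ) (D (2 * ρ)) (ENNReal.ofReal (C₀ * ρ ^ 2)) (hD ρ) (hD (2 * ρ))
    (fun b => hup b ρ hρ (by linarith)) (fun a b b' => htri a b b' ρ)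
  have h3 := ACM_cs lam (fun a => σ (Prod.mk a ⁻¹' (D ρ))) (measurable_measure_prodMk_left (hD ρ).measurableSet) U
  have h4 := hen (2 * ρ) (by positivity) (by linarith)
  have e4 : ENNReal.ofReal (C * (2 * ρ) ^ (1 + (1 : ℝ))) = ENNReal.ofReal C * 4 * ENNReal.ofReal (ρ ^ 2) := by
    rw [show (1 + (1 : ℝ)) = ((2 : ℕ) : ℝ) by norm_num, Real.rpow_natCast,
      ENNReal.ofReal_mul' (by positivity : (0 : ℝ) ≤ (2 * ρ) ^ 2), mul_pow,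
      ENNReal.ofReal_mul (by positivity : (0 : ℝ) ≤ 2 ^ 2), ← mul_assoc]
    norm_num
  rw [e4] at h4
  rw [ENNReal.ofReal_mul' (by positivity : (0 : ℝ) ≤ ρ ^ 2)] at h1 h2
  set r : ℝ≥0∞ := ENNReal.ofReal (ρ ^ 2) with hr
  have hr0 : r ≠ 0 := by
    rw [hr]
    simpa using ne_of_gt hρ
  have hrt : r ≠ ⊤ := ENNReal.ofReal_ne_top
  have h5 : (r * (ENNReal.ofReal c * σ K)) ^ (2 : ℝ) ≤
      r ^ (2 : ℝ) * ((ENNReal.ofReal C₀ * (ENNReal.ofReal C * 4)) * lam U) := by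
    calc (r * (ENNReal.ofReal c * σ K)) ^ (2 : ℝ) = (ENNReal.ofReal c * r * σ K) ^ (2 : ℝ) := by
          congr 1
          ring
      _ ≤ (∫⁻ a in U, σ (Prod.mk a ⁻¹' (D ρ)) ∂lam) ^ (2 : ℝ) := ENNReal.rpow_le_rpow h1 (by norm_num)
      _ ≤ (∫⁻ a, (σ (Prod.mk a ⁻¹' (D ρ))) ^ (2 : ℝ) ∂lam) * lam U := h3
      _ ≤ (ENNReal.ofReal C₀ * r * (ENNReal.ofReal C * 4 * r)) * lam U :=
          mul_le_mul_left (h2.trans (mul_le_mul_right h4 _)) _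
      _ = r ^ (2 : ℝ) * ((ENNReal.ofReal C₀ * (ENNReal.ofReal C * 4)) * lam U) := by
          rw [show (2 : ℝ) = ((2 : ℕ) : ℝ) by norm_num, ENNReal.rpow_natCast]
          ring
  rw [ENNReal.mul_rpow_of_nonneg _ _ (by norm_num : (0 : ℝ) ≤ 2)] at h5
  have hrr : r ^ (2 : ℝ) ≠ 0 := by
    rw [show (2 : ℝ) = ((2 : ℕ) : ℝ) by norm_num, ENNReal.rpow_natCast]
    exact pow_ne_zero _ hr0
  have hrr' : r ^ (2 : ℝ) ≠ ⊤ := by
    rw [show (2 : ℝ) = ((2 : ℕ) : ℝ) by norm_num, ENNReal.rpow_natCast]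
    exact ENNReal.pow_ne_top hrt
  exact (ENNReal.mul_le_mul_iff_right hrr hrr').1 h5

/-- the abstract form -/
theorem ACM_abs [CompactSpace M] [T2Space M] (lam σ : Measure M) [IsFiniteMeasure lam] [IsFiniteMeasure σ] (D : ℝ → Set (M × M)) (c C₀ C : ℝ)
    (hc : 0 < c) (hD : ∀ ρ, IsOpen (D ρ))
    (hlow : ∀ b ρ, 0 < ρ → ρ ≤ 1 → ENNReal.ofReal (c * ρ ^ 2) ≤ lam {a | (a, b) ∈ D ρ})
    (hup : ∀ b ρ, 0 < ρ → ρ ≤ 1 → lam {a | (a, b) ∈ D ρ} ≤ ENNReal.ofReal (C₀ * ρ ^ 2))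
    (htri : ∀ a b b' ρ, (a, b) ∈ D ρ → (a, b') ∈ D ρ → (b, b') ∈ D (2 * ρ))
    (hen : ∀ ρ : ℝ, 0 < ρ → ρ ≤ 1 → (σ.prod σ) (D ρ) ≤ ENNReal.ofReal (C * ρ ^ (1 + (1 : ℝ))))
    (hnb : ∀ K U : Set M, IsCompact K → IsOpen U → K ⊆ U → ∃ ρ₀ : ℝ, 0 < ρ₀ ∧ ∀ ρ ≤ ρ₀, ∀ a, ∀ b ∈ K, (a, b) ∈ D ρ → a ∈ U)
    (E : Set M) (hE : MeasurableSet E) (h0 : lam E = 0) : σ E = 0 := by
  by_contra hne
  have : TopologicalSpace.MetrizableSpace M := TopologicalSpace.metrizableSpace_of_t3_secondCountable M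
  letI := TopologicalSpace.metrizableSpaceMetric M
  obtain ⟨K, hKE, hK, hKpos⟩ := hE.exists_lt_isCompact_of_ne_top (μ := σ) (measure_ne_top σ E) (pos_iff_ne_zero.2 hne)
  have hlK : lam K = 0 := measure_mono_null hKE h0
  have hX : (ENNReal.ofReal c * σ K) ^ (2 : ℝ) ≠ 0 := by
    rw [show (2 : ℝ) = ((2 : ℕ) : ℝ) by norm_num, ENNReal.rpow_natCast]
    refine pow_ne_zero _ (mul_ne_zero ?_ hKpos.ne')
    simpa using hc
  have hA : (ENNReal.ofReal C₀ * (ENNReal.ofReal C * 4)) ≠ ⊤ :=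
    ENNReal.mul_ne_top ENNReal.ofReal_ne_top (ENNReal.mul_ne_top ENNReal.ofReal_ne_top (by norm_num))
  obtain ⟨n, hn, hlt⟩ := ENNReal.exists_nnreal_pos_mul_lt hA hX
  obtain ⟨U, hKU, hU, hUl⟩ := Set.exists_isOpen_le_add K lam (ε := (n : ℝ≥0∞)) (by simpa using hn.ne')
  rw [hlK, zero_add] at hUl
  have h1 := ACM_key lam σ D c C₀ C hD hlow hup htri hen K U hK.measurableSet hU.measurableSet (hnb K U hK hU hKU)
  have h2 : (ENNReal.ofReal c * σ K) ^ (2 : ℝ) ≤ (ENNReal.ofReal C₀ * (ENNReal.ofReal C * 4)) * n :=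
    h1.trans (mul_le_mul_right hUl _)
  rw [mul_comm] at hlt
  exact absurd h2 (not_le.2 hlt)

end abs

section conc

variable {Γ : Subgroup SL(2, ℝ)}

theorem ACM_dist (γ : Γ) (z w : ℍ) : dist (γ • z) (γ • w) = dist z w :=
  dist_smul (γ : SL(2, ℝ)) z w

theorem ACM_mem (ρ : ℝ) (z w : ℍ) :
    (mkM Γ z, mkM Γ w) ∈ DM Γ ρ ↔ ∃ γ : Γ, γ • z ∈ Metric.ball w ρ := by
  obtain ⟨-, -, -, -, -, -, -, -, -, -, -, heq⟩ := EN.XFL_proof Γ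
  constructor
  · rintro ⟨z1, w1, h1, h2, h3⟩
    obtain ⟨γ, hγ⟩ := (heq z z1).1 h1
    obtain ⟨δ, hδ⟩ := (heq w w1).1 h2
    refine ⟨δ⁻¹ * γ, ?_⟩
    rw [Metric.mem_ball, mul_smul, hγ]
    have : w = δ⁻¹ • w1 := by rw [← hδ, inv_smul_smul]
    rw [this, ACM_dist]
    exact h3
  · rintro ⟨γ, hγ⟩
    exact ⟨γ • z, w, (heq z (γ • z)).2 ⟨γ, rfl⟩, rfl, hγ⟩

theorem ACM_open (ρ : ℝ) : IsOpen (DM Γ ρ) := by
  obtain ⟨-, -, -, -, -, -, ho, -, -, -, -, -⟩ := EN.XFL_proof Γ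
  have e : DM Γ ρ = Prod.map (mkM Γ) (mkM Γ) '' {p : ℍ × ℍ | dist p.1 p.2 < ρ} := by
    ext ⟨a, b⟩
    constructor
    · rintro ⟨z, w, h1, h2, h3⟩
      exact ⟨(z, w), h3, by rw [Prod.map_apply]; exact (Prod.ext h1 h2).symm⟩
    · rintro ⟨⟨z, w⟩, h3, h4⟩
      rw [Prod.map_apply] at h4
      exact ⟨z, w, (congrArg Prod.fst h4).symm, (congrArg Prod.snd h4).symm, h3⟩
  rw [e]
  refine (ho.prodMap ho) _ ?_
  exact isOpen_lt (continuous_fst.dist continuous_snd) continuous_const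

theorem ACM_tri (a b b' : MG Γ) (ρ : ℝ) (h1 : (a, b) ∈ DM Γ ρ) (h2 : (a, b') ∈ DM Γ ρ) : (b, b') ∈ DM Γ (2 * ρ) := by
  obtain ⟨-, -, -, -, -, -, -, hs, -, -, -, heq⟩ := EN.XFL_proof Γ
  obtain ⟨z, rfl⟩ := hs a
  obtain ⟨w, rfl⟩ := hs b
  obtain ⟨w', rfl⟩ := hs b'
  rw [ACM_mem] at h1 h2
  obtain ⟨γ, hγ⟩ := h1
  obtain ⟨δ, hδ⟩ := h2
  rw [ACM_mem]
  refine ⟨δ * γ⁻¹, ?_⟩
  rw [Metric.mem_ball] at *
  have e1 : dist ((δ * γ⁻¹) • w) (δ • z) < ρ := by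
    have : δ • z = (δ * γ⁻¹) • (γ • z) := by rw [mul_smul, inv_smul_smul]
    rw [this, ACM_dist, dist_comm]
    exact hγ
  calc dist ((δ * γ⁻¹) • w) w' ≤ dist ((δ * γ⁻¹) • w) (δ • z) + dist (δ • z) w' := dist_triangle _ _ _
    _ < 2 * ρ := by linarith

theorem ACM_nb (K U : Set (MG Γ)) (hK : IsCompact K) (hU : IsOpen U) (hKU : K ⊆ U) :
    ∃ ρ₀ : ℝ, 0 < ρ₀ ∧ ∀ ρ ≤ ρ₀, ∀ a, ∀ b ∈ K, (a, b) ∈ DM Γ ρ → a ∈ U := by
  obtain ⟨-, -, -, -, -, hc, ho, hs, -, -, -, heq⟩ := EN.XFL_proof Γ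
  refine hK.induction_on (p := fun K => ∃ ρ₀ : ℝ, 0 < ρ₀ ∧ ∀ ρ ≤ ρ₀, ∀ a, ∀ b ∈ K, (a, b) ∈ DM Γ ρ → a ∈ U) ?_ ?_ ?_ ?_
  · exact ⟨1, one_pos, fun ρ _ a b hb => absurd hb (Set.notMem_empty b)⟩
  · rintro s t hst ⟨ρ₀, h0, h⟩
    exact ⟨ρ₀, h0, fun ρ hρ a b hb => h ρ hρ a b (hst hb)⟩
  · rintro s t ⟨ρ₁, h1, h1'⟩ ⟨ρ₂, h2, h2'⟩
    refine ⟨min ρ₁ ρ₂, lt_min h1 h2, fun ρ hρ a b hb => ?_⟩
    rcases hb with hb | hb
    · exact h1' ρ (hρ.trans (min_le_left _ _)) a b hb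
    · exact h2' ρ (hρ.trans (min_le_right _ _)) a b hb
  · intro b hb
    obtain ⟨w, rfl⟩ := hs b
    have hVo : IsOpen (mkM Γ ⁻¹' U) := hU.preimage hc
    obtain ⟨r, hr, hball⟩ := Metric.isOpen_iff.1 hVo w (hKU hb)
    refine ⟨mkM Γ '' Metric.ball w (r / 2), mem_nhdsWithin_of_mem_nhds
      ((ho _ Metric.isOpen_ball).mem_nhds ⟨w, Metric.mem_ball_self (by positivity), rfl⟩), r / 2, by positivity, ?_⟩
    rintro ρ hρ a b ⟨w', hw', rfl⟩ hab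
    obtain ⟨z, rfl⟩ := hs a
    rw [ACM_mem] at hab
    obtain ⟨γ, hγ⟩ := hab
    rw [(heq z (γ • z)).2 ⟨γ, rfl⟩]
    refine hball ?_
    rw [Metric.mem_ball] at *
    calc dist (γ • z) w ≤ dist (γ • z) w' + dist w' w := dist_triangle _ _ _
      _ < r := by linarith

end conc

/-- **Row ACM.** -/
theorem ACM_proof (h1 : LBM_stmt) : ACM_stmt := by
  intro Γ σ C E hΓ hσ hen hE h0
  obtain ⟨-, -, -, -, -, hc, ho, hs, -, -, -, heq⟩ := EN.XFL_proof Γ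
  obtain ⟨i1, i2, i3⟩ := EN.XTM_proof EN.XFL_proof Γ hΓ
  obtain ⟨F, hF⟩ := QU.A_DOM Γ hΓ
  obtain ⟨-, -, -, hfin, -, -⟩ := QU.A_DOB Γ F hΓ hF
  obtain ⟨c, C₀, hcpos, -, hLB⟩ := h1 Γ F hΓ hF
  have hmeas : Measurable (mkM Γ) := hc.measurable
  have hfin' : IsFiniteMeasure ((volume : Measure ℍ).restrict F) := ⟨by rw [Measure.restrict_apply_univ]; exact hfin⟩
  have hfin2 : IsFiniteMeasure (((volume : Measure ℍ).restrict F).map (mkM Γ)) := inferInstance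
  have key : ∀ (w : ℍ) (ρ : ℝ), (((volume : Measure ℍ).restrict F).map (mkM Γ)) {a | (a, mkM Γ w) ∈ DM Γ ρ} =
      volume {z | z ∈ F ∧ ∃ γ : Γ, γ • z ∈ Metric.ball w ρ} := by
    intro w ρ
    have hm : MeasurableSet {a | (a, mkM Γ w) ∈ DM Γ ρ} := by
      have : {a | (a, mkM Γ w) ∈ DM Γ ρ} = (fun a => (a, mkM Γ w)) ⁻¹' DM Γ ρ := rfl
      rw [this]
      exact ((ACM_open ρ).preimage (by fun_prop)).measurableSet
    rw [Measure.map_apply hmeas hm, Measure.restrict_apply (hmeas hm)]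
    congr 1
    ext z
    constructor
    · rintro ⟨hz, hzF⟩
      exact ⟨hzF, (ACM_mem ρ z w).1 hz⟩
    · rintro ⟨hzF, hz⟩
      exact ⟨(ACM_mem ρ z w).2 hz, hzF⟩
  refine ACM_abs (((volume : Measure ℍ).restrict F).map (mkM Γ)) σ (DM Γ) c C₀ C hcpos ACM_open ?_ ?_ ACM_tri hen ACM_nb E hE ?_
  · intro b ρ hρ hρ1
    obtain ⟨w, rfl⟩ := hs b
    rw [key]
    exact (hLB w ρ hρ hρ1).1
  · intro b ρ hρ hρ1
    obtain ⟨w, rfl⟩ := hs b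
    rw [key]
    exact (hLB w ρ hρ hρ1).2
  · rw [Measure.map_apply hmeas hE]
    exact measure_mono_null (fun z hz => hz) (le_antisymm ((Measure.restrict_apply_le _ _).trans h0.le) bot_le)

end Pool.Agent.LL
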